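import Pool.Agent.V11328.ML.Exp

/-! The modified log-Sobolev constant is not controlled by the entropy mixing time or by the
entropy hitting-time parameter: reversible chains with three states. -/

open Finset Matrix

namespace Pool.Agent.Results.MP_bada7b_pr.ThreeStates

open Pool.Agent.V11328.ML

section defs

variable {Ω : Type} [Fintype Ω] [DecidableEq Ω]

/-- `P` is an irreducible transition matrix, reversible with respect to the probability `π`. -/
structure IsChain (P : Matrix Ω Ω ℝ) (π : Ω → ℝ) : Prop where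
  nonneg : ∀ x y, 0 ≤ P x y
  row : ∀ x, ∑ y, P x y = 1
  pos : ∀ x, 0 < π x
  total : ∑ x, π x = 1
  rev : ∀ x y, π x * P x y = π y * P y x
  irred : ∀ x y, ∃ k : ℕ, 0 < (P ^ k) x y

/-- The semigroup `H_t = e^{-t(I-P)}` (matrix exponential). -/
noncomputable def heat (P : Matrix Ω Ω ℝ) (t : ℝ) : Matrix Ω Ω ℝ :=
  NormedSpace.exp (-(t • (1 - P)))

/-- Relative entropy `D(μ ‖ π)`. -/
noncomputable def relEnt (μ π : Ω → ℝ) : ℝ := ∑ x, μ x * Real.log (μ x / π x)

/-- The entropy mixing time `τ_ent = max_x inf {t : D(H_t(x,·) ‖ π) ≤ 1/2}`. -/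
noncomputable def tauEnt (P : Matrix Ω Ω ℝ) (π : Ω → ℝ) : ℝ :=
  ⨆ x, sInf {t : ℝ | 0 ≤ t ∧ relEnt (heat P t x) π ≤ 1 / 2}

/-- The Dirichlet form `⟨(I-P)f, g⟩_π`. -/
noncomputable def dirichlet (P : Matrix Ω Ω ℝ) (π f g : Ω → ℝ) : ℝ :=
  ∑ x, π x * ((1 - P) *ᵥ f) x * g x

/-- `Ent_π(f) = E_π[f log f] - E_π[f] log E_π[f]`. -/
noncomputable def entropy (π f : Ω → ℝ) : ℝ :=
  ∑ x, π x * (f x * Real.log (f x)) - (∑ x, π x * f x) * Real.log (∑ x, π x * f x)

/-- The modified log-Sobolev constant: the infimum of `𝓔(e^f, f) / Ent_π(e^f)` over the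
non-constant functions `f`. -/
noncomputable def cMLS (P : Matrix Ω Ω ℝ) (π : Ω → ℝ) : ℝ :=
  sInf {r : ℝ | ∃ f : Ω → ℝ, (∃ x y, f x ≠ f y) ∧
    r = dirichlet P π (fun x => Real.exp (f x)) f / entropy π (fun x => Real.exp (f x))}

/-- The restriction of `P` to `A`. -/
def restr (P : Matrix Ω Ω ℝ) (A : Finset Ω) : Matrix Ω Ω ℝ :=
  Matrix.of fun x y => if x ∈ A ∧ y ∈ A then P x y else 0

/-- The probability that the continuous time chain started at `x` stays in `A` up to time `t`: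
`Pr_x[T_{Aᶜ} > t] = ∑_{y ∈ A} e^{-t(I-P_A)}(x,y)` with `P_A` the restriction of `P` to `A`. -/
noncomputable def survive (P : Matrix Ω Ω ℝ) (A : Finset Ω) (t : ℝ) (x : Ω) : ℝ :=
  ∑ y ∈ A, NormedSpace.exp (-(t • (1 - restr P A))) x y

/-- The entropy hitting-time parameter with constant `c` (all nonempty sets `A` with
`π(A) ≤ 1/2`). -/
noncomputable def rhoEnt (c : ℝ) (P : Matrix Ω Ω ℝ) (π : Ω → ℝ) : ℝ :=
  ⨆ x, sInf {t : ℝ | 0 ≤ t ∧ ∀ A : Finset Ω, A.Nonempty → ∑ y ∈ A, π y ≤ 1 / 2 →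
    survive P A t x ≤ min (c / |Real.log (∑ y ∈ A, π y)|) (99 / 100)}

end defs

/-- The chain. -/
noncomputable def PP (a : ℝ) : Matrix (Fin 3) (Fin 3) ℝ :=
  !![1 / 2, 1 / 2, 0; 1 / 2, 0, 1 / 2; 0, a / (2 * (1 - 2 * a)), 1 - a / (2 * (1 - 2 * a))]

/-- Its stationary distribution. -/
noncomputable def pp (a : ℝ) : Fin 3 → ℝ := ![a, a, 1 - 2 * a]

variable {a : ℝ}

lemma q_pos (h0 : 0 < a) (h1 : a ≤ 1 / 4) : 0 < a / (2 * (1 - 2 * a)) := by
  apply div_pos h0; linarith

lemma q_le (h0 : 0 < a) (h1 : a ≤ 1 / 4) : a / (2 * (1 - 2 * a)) ≤ a := by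
  rw [div_le_iff₀ (by linarith)]
  nlinarith

lemma q_mul (h1 : a ≤ 1 / 4) : (1 - 2 * a) * (a / (2 * (1 - 2 * a))) = a / 2 := by
  have hc : (1 - 2 * a) ≠ 0 := by linarith
  rw [mul_div_assoc', div_eq_div_iff (by positivity) (by norm_num)]
  ring

lemma PP_nonneg (h0 : 0 < a) (h1 : a ≤ 1 / 4) : ∀ x y, 0 ≤ PP a x y := by
  have := q_pos h0 h1
  have := q_le h0 h1
  intro x y
  fin_cases x <;> fin_cases y <;> simp [PP] <;> linarith

lemma PP_row (x : Fin 3) : ∑ y, PP a x y = 1 := by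
  fin_cases x <;> simp [PP, Fin.sum_univ_three] <;> norm_num

lemma isChain (h0 : 0 < a) (h1 : a ≤ 1 / 4) : IsChain (PP a) (pp a) where
  nonneg := PP_nonneg h0 h1
  row := PP_row
  pos := by
    intro x
    fin_cases x <;> simp [pp] <;> linarith
  total := by
    simp [pp, Fin.sum_univ_three]
    ring
  rev := by
    have hq := q_mul h1
    intro x y
    fin_cases x <;> fin_cases y <;> simp [PP, pp]
    all_goals (try linarith)
  irred := by
    have := q_pos h0 h1
    intro x y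
    refine ⟨2, ?_⟩
    rw [pow_two, Matrix.mul_apply, Fin.sum_univ_three]
    have := q_le h0 h1
    fin_cases x <;> fin_cases y <;> simp [PP] <;> nlinarith

lemma dir_eq (h1 : a ≤ 1 / 4) (F f : Fin 3 → ℝ) : dirichlet (PP a) (pp a) F f =
    a / 2 * ((F 0 - F 1) * (f 0 - f 1) + (F 1 - F 2) * (f 1 - f 2)) := by
  have hq := q_mul h1
  simp only [dirichlet, Fin.sum_univ_three, Matrix.mulVec, dotProduct, Matrix.sub_apply,
    Matrix.one_apply, PP, pp]
  simp
  generalize a / (2 * (1 - 2 * a)) = q at hq ⊢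
  linear_combination (F 2 * f 2 - F 1 * f 2) * hq

/-- Test function. -/
noncomputable def vv : Fin 3 → ℝ := ![1, 3 / 4, 0]

lemma vv_nonneg (x : Fin 3) : 0 ≤ vv x := by
  fin_cases x <;> simp [vv]
  norm_num

lemma vv_le (x : Fin 3) : vv x ≤ 1 := by
  fin_cases x <;> simp [vv] <;> norm_num

lemma heat_eq {Ω : Type} [Fintype Ω] [DecidableEq Ω] (P : Matrix Ω Ω ℝ) (t : ℝ) :
    -(t • (1 - P)) = t • (P - 1) := by
  rw [← smul_neg, neg_sub]

lemma heat_vv (h0 : 0 < a) (h1 : a ≤ 1 / 4) {t : ℝ} (ht : 0 ≤ t) (x : Fin 3) :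
    heat (PP a) t x 0 + heat (PP a) t x 1 ≤ 4 / 3 * (Real.exp (-(t / 8)) + 8 * a) := by
  have hq := q_pos h0 h1
  have hq2 := q_le h0 h1
  have h := heat_le (PP_nonneg h0 h1) (l := 1 / 8) (w := fun y => vv y - 8 * a) (by norm_num)
    (by
      intro y
      fin_cases y <;> simp [PP, vv, Matrix.mulVec, dotProduct, Fin.sum_univ_three] <;> nlinarith)
    ht x
  have h2 := heat_one (PP_nonneg h0 h1) PP_row ht x
  have h3 := heat_nonneg (PP_nonneg h0 h1) ht x 0
  simp only [Matrix.mulVec, dotProduct, Fin.sum_univ_three] at h h2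
  unfold heat
  rw [heat_eq]
  set H := NormedSpace.exp (t • (PP a - 1)) with hH
  have h4 : Real.exp (-(1 / 8 * t)) * (vv x - 8 * a) ≤ Real.exp (-(t / 8)) := by
    rw [show -(1 / 8 * t) = -(t / 8) by ring]
    have := Real.exp_pos (-(t / 8))
    have := vv_le x
    nlinarith
  simp only [vv] at h
  simp at h
  have h5 : H x 0 * (1 - 8 * a) + H x 1 * (3 / 4 - 8 * a) + H x 2 * (0 - 8 * a) =
      H x 0 + 3 / 4 * H x 1 - 8 * a := by
    linear_combination (-8 * a) * h2
  simp only [vv] at h4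
  nlinarith

lemma relEnt_le (h0 : 0 < a) (h1 : a ≤ 1 / 4) {u : Fin 3 → ℝ} (hu : ∀ x, 0 ≤ u x)
    (hs : ∑ x, u x = 1) :
    relEnt u (pp a) ≤ (u 0 + u 1) * (-Real.log a) + 4 * a := by
  have hc : 0 < 1 - 2 * a := by linarith
  rw [Fin.sum_univ_three] at hs
  have hu0 := hu 0
  have hu1 := hu 1
  have hu2 := hu 2
  have key : ∀ x : Fin 3, ∀ b : ℝ, 0 < b → u x * Real.log (u x / b) ≤ u x * (-Real.log b) := by
    intro x b hb
    have hle : u x ≤ 1 := by fin_cases x <;> simp <;> linarith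
    rcases (hu x).eq_or_lt with h | h
    · rw [← h]; simp
    · apply mul_le_mul_of_nonneg_left _ h.le
      rw [Real.log_div h.ne' hb.ne']
      have := Real.log_nonpos h.le hle
      linarith
  have k0 := key 0 a h0
  have k1 := key 1 a h0
  have k2 := key 2 (1 - 2 * a) hc
  have k3 : -Real.log (1 - 2 * a) ≤ 4 * a := by
    rw [← Real.log_inv]
    refine (Real.log_le_sub_one_of_pos (by positivity)).trans ?_
    rw [inv_eq_one_div, sub_le_iff_le_add, div_le_iff₀ hc]
    nlinarith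
  have k4 : u 2 * (-Real.log (1 - 2 * a)) ≤ 4 * a := by
    have : u 2 ≤ 1 := by linarith
    nlinarith
  simp only [relEnt, Fin.sum_univ_three, pp]
  simp
  simp at k0 k1 k2
  nlinarith

lemma tau_le (h0 : 0 < a) (h1 : a ≤ 1 / 4) {T : ℝ} (hT : 0 ≤ T)
    (hb : 4 / 3 * (Real.exp (-(T / 8)) + 8 * a) * (-Real.log a) + 4 * a ≤ 1 / 2) :
    tauEnt (PP a) (pp a) ≤ T := by
  refine ciSup_le fun x => ?_
  refine csInf_le ⟨0, fun t ht => ht.1⟩ ⟨hT, ?_⟩
  have hlog : 0 ≤ -Real.log a := by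
    have := Real.log_nonpos h0.le (by linarith)
    linarith
  refine (relEnt_le h0 h1 (u := heat (PP a) T x) ?_ ?_).trans ?_
  · intro y
    unfold heat
    rw [heat_eq]
    exact heat_nonneg (PP_nonneg h0 h1) hT x y
  · unfold heat
    rw [heat_eq]
    exact heat_one (PP_nonneg h0 h1) PP_row hT x
  · have := mul_le_mul_of_nonneg_right (heat_vv h0 h1 hT x) hlog
    linarith

lemma survive_le (h0 : 0 < a) (h1 : a ≤ 1 / 4) {t : ℝ} (ht : 0 ≤ t) (x : Fin 3)
    {A : Finset (Fin 3)} (hA : (2 : Fin 3) ∉ A) :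
    survive (PP a) A t x ≤ 4 / 3 * Real.exp (-(t / 8)) := by
  have hP := PP_nonneg h0 h1
  have hR : ∀ y z, 0 ≤ restr (PP a) A y z := by
    intro y z
    simp only [restr, Matrix.of_apply]
    split_ifs
    · exact hP y z
    · exact le_rfl
  have h := heat_le hR (l := 1 / 8) (w := fun y => if y ∈ A then vv y else 0) (by norm_num)
    (by
      intro y
      simp only [Matrix.mulVec, dotProduct, restr, Matrix.of_apply]
      by_cases hy : y ∈ A
      · rw [if_pos hy]
        have h2 : ∑ z, (if y ∈ A ∧ z ∈ A then PP a y z else 0) * (if z ∈ A then vv z else 0) ≤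
            ∑ z, PP a y z * vv z := by
          refine Finset.sum_le_sum fun z _ => ?_
          by_cases hz : z ∈ A
          · simp [hy, hz]
          · simp only [hz, and_false, if_false, zero_mul]
            exact mul_nonneg (hP y z) (vv_nonneg z)
        refine h2.trans ?_
        have hy2 : y ≠ 2 := fun h => hA (h ▸ hy)
        fin_cases y
        · simp [PP, vv, Fin.sum_univ_three]; norm_num
        · simp [PP, vv, Fin.sum_univ_three]; norm_num
        · exact absurd rfl hy2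
      · simp [hy])
    ht x
  unfold survive
  rw [heat_eq]
  set E := NormedSpace.exp (t • (restr (PP a) A - 1)) with hE
  have h3 : ∀ y, 0 ≤ E x y := fun y => heat_nonneg hR ht x y
  have h4 : ∑ y ∈ A, E x y ≤ 4 / 3 * (E *ᵥ fun y => if y ∈ A then vv y else 0) x := by
    simp only [Matrix.mulVec, dotProduct]
    rw [Finset.mul_sum, ← Finset.sum_filter_add_sum_filter_not univ (· ∈ A)]
    have e1 : ∑ y ∈ univ.filter (· ∈ A), 4 / 3 * (E x y * if y ∈ A then vv y else 0) =
        ∑ y ∈ A, 4 / 3 * (E x y * vv y) := by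
      rw [Finset.filter_mem_eq_inter, Finset.univ_inter]
      exact Finset.sum_congr rfl fun y hy => by rw [if_pos hy]
    have e2 : 0 ≤ ∑ y ∈ univ.filter (fun y => ¬ y ∈ A), 4 / 3 * (E x y * if y ∈ A then vv y else 0) := by
      refine Finset.sum_nonneg fun y hy => ?_
      rw [mem_filter] at hy
      rw [if_neg hy.2]
      simp
    rw [e1]
    have e3 : ∑ y ∈ A, E x y ≤ ∑ y ∈ A, 4 / 3 * (E x y * vv y) := by
      refine Finset.sum_le_sum fun y hy => ?_
      have hy2 : y ≠ 2 := fun h => hA (h ▸ hy)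
      have hv : 3 / 4 ≤ vv y := by
        fin_cases y
        · simp [vv]; norm_num
        · simp [vv]
        · exact absurd rfl hy2
      nlinarith [h3 y]
    linarith
  refine h4.trans (mul_le_mul_of_nonneg_left (h.trans ?_) (by norm_num))
  rw [show -(1 / 8 * t) = -(t / 8) by ring]
  have h5 : (if x ∈ A then vv x else 0) ≤ 1 := by
    split_ifs
    · exact vv_le x
    · norm_num
  have := Real.exp_pos (-(t / 8))
  nlinarith

lemma rho_le (h0 : 0 < a) (h1 : a ≤ 1 / 8) {c T : ℝ} (hc : 0 < c) (hT : 0 ≤ T)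
    (hb : 4 / 3 * Real.exp (-(T / 8)) ≤ c / (-Real.log a))
    (hb2 : 4 / 3 * Real.exp (-(T / 8)) ≤ 99 / 100) :
    rhoEnt c (PP a) (pp a) ≤ T := by
  refine ciSup_le fun x => ?_
  refine csInf_le ⟨0, fun t ht => ht.1⟩ ⟨hT, ?_⟩
  intro A hne hA
  have hpos : ∀ y : Fin 3, a ≤ pp a y := by
    intro y
    fin_cases y <;> simp [pp] <;> linarith
  have h2A : (2 : Fin 3) ∉ A := by
    intro h2
    have : pp a 2 ≤ ∑ y ∈ A, pp a y :=
      Finset.single_le_sum (f := pp a) (fun y _ => h0.le.trans (hpos y)) h2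
    simp [pp] at this
    simp [pp] at hA
    linarith
  obtain ⟨z, hz⟩ := hne
  have hge : a ≤ ∑ y ∈ A, pp a y := (hpos z).trans
    (Finset.single_le_sum (f := pp a) (fun y _ => h0.le.trans (hpos y)) hz)
  have hlog1 : Real.log a ≤ Real.log (∑ y ∈ A, pp a y) := Real.log_le_log h0 hge
  have hlog2 : Real.log (∑ y ∈ A, pp a y) < 0 :=
    Real.log_neg (by linarith) (by linarith)
  refine le_min ((survive_le h0 (by linarith) hT x h2A).trans (hb.trans ?_))
    ((survive_le h0 (by linarith) hT x h2A).trans hb2)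
  rw [abs_of_neg hlog2]
  exact div_le_div_of_nonneg_left hc.le (by linarith) (by linarith)

lemma pp_ge (h0 : 0 < a) (h1 : a ≤ 1 / 4) (y : Fin 3) : a ≤ pp a y := by
  fin_cases y <;> simp [pp] <;> linarith

lemma pp_sum : pp a 0 + pp a 1 + pp a 2 = 1 := by
  simp [pp]; ring

lemma entropy_eq (π f : Fin 3 → ℝ) : entropy π (fun x => Real.exp (f x)) =
    ∑ x, π x * (Real.exp (f x) * f x) -
      (∑ x, π x * Real.exp (f x)) * Real.log (∑ x, π x * Real.exp (f x)) := by
  simp [entropy]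

lemma ent_pos (h0 : 0 < a) (h1 : a ≤ 1 / 4) {f : Fin 3 → ℝ} (hf : ∃ x y, f x ≠ f y) :
    0 < entropy (pp a) (fun x => Real.exp (f x)) := by
  rw [entropy_eq]
  set m := ∑ x, pp a x * Real.exp (f x) with hm
  have hpos : ∀ x, 0 < pp a x := fun x => h0.trans_le (pp_ge h0 h1 x)
  have hm0 : 0 < m := Finset.sum_pos (fun x _ => mul_pos (hpos x) (Real.exp_pos _)) ⟨0, mem_univ _⟩
  have hsum : ∑ x, pp a x = 1 := by rw [Fin.sum_univ_three]; exact pp_sum
  have e : ∑ x, pp a x * (Real.exp (f x) * f x) - m * Real.log m =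
      ∑ x, pp a x * (Real.exp (f x) * f x - Real.exp (f x) * Real.log m - Real.exp (f x) + m) := by
    have : ∑ x, pp a x * (Real.exp (f x) * f x - Real.exp (f x) * Real.log m - Real.exp (f x) + m) =
        ∑ x, pp a x * (Real.exp (f x) * f x) - (∑ x, pp a x * Real.exp (f x)) * Real.log m
          - (∑ x, pp a x * Real.exp (f x)) + (∑ x, pp a x) * m := by
      rw [Finset.sum_mul, Finset.sum_mul, ← Finset.sum_sub_distrib, ← Finset.sum_sub_distrib,
        ← Finset.sum_add_distrib]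
      exact Finset.sum_congr rfl fun x _ => by ring
    rw [this, hsum, ← hm]
    ring
  rw [e]
  have hx : ∃ x, Real.exp (f x) ≠ m := by
    by_contra hc
    push Not at hc
    obtain ⟨x, y, hxy⟩ := hf
    exact hxy (Real.exp_injective ((hc x).trans (hc y).symm))
  have hle : ∀ x, 0 ≤ Real.exp (f x) * f x - Real.exp (f x) * Real.log m - Real.exp (f x) + m := by
    intro x
    have hF := Real.exp_pos (f x)
    have := Real.log_le_sub_one_of_pos (show 0 < m / Real.exp (f x) by positivity)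
    rw [Real.log_div hm0.ne' hF.ne', Real.log_exp] at this
    have h3 := mul_le_mul_of_nonneg_left this hF.le
    have h4 : Real.exp (f x) * (m / Real.exp (f x) - 1) = m - Real.exp (f x) := by
      field_simp
    rw [h4] at h3
    linarith
  obtain ⟨x0, hx0⟩ := hx
  refine Finset.sum_pos' (fun x _ => mul_nonneg (hpos x).le (hle x)) ⟨x0, mem_univ _, ?_⟩
  refine mul_pos (hpos x0) ?_
  have hF := Real.exp_pos (f x0)
  have := Real.log_lt_sub_one_of_pos (show 0 < m / Real.exp (f x0) by positivity)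
    (by rw [Ne, div_eq_one_iff_eq hF.ne']; exact fun h => hx0 h.symm)
  rw [Real.log_div hm0.ne' hF.ne', Real.log_exp] at this
  have h3 := mul_lt_mul_of_pos_left this hF
  have h4 : Real.exp (f x0) * (m / Real.exp (f x0) - 1) = m - Real.exp (f x0) := by
    field_simp
  rw [h4] at h3
  linarith

lemma four_point (x y : ℝ) : 2 * (Real.exp (x / 2) - Real.exp (y / 2)) ^ 2 ≤
    (Real.exp x - Real.exp y) * (x - y) := by
  have key : ∀ x y : ℝ, y ≤ x → 2 * (Real.exp (x / 2) - Real.exp (y / 2)) ^ 2 ≤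
    (Real.exp x - Real.exp y) * (x - y) := by
    intro x y hxy
    set s := Real.exp (x / 2) with hs
    set t := Real.exp (y / 2) with ht
    have hs0 : 0 < s := Real.exp_pos _
    have ht0 : 0 < t := Real.exp_pos _
    have hst : t ≤ s := Real.exp_le_exp.2 (by linarith)
    have e1 : Real.exp x = s ^ 2 := by rw [hs, ← Real.exp_nat_mul]; congr 1; push_cast; ring
    have e2 : Real.exp y = t ^ 2 := by rw [ht, ← Real.exp_nat_mul]; congr 1; push_cast; ring
    have e3 : x = 2 * Real.log s := by rw [hs, Real.log_exp]; ring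
    have e4 : y = 2 * Real.log t := by rw [ht, Real.log_exp]; ring
    have h1 := Real.log_le_sub_one_of_pos (show 0 < t / s by positivity)
    rw [Real.log_div ht0.ne' hs0.ne'] at h1
    have h2 : (s - t) / s ≤ (x - y) / 2 := by
      have : (s - t) / s = 1 - t / s := by field_simp
      rw [this, e3, e4]
      linarith
    have h3 : s - t ≤ (x - y) / 2 * s := by
      rwa [div_le_iff₀ hs0] at h2
    rw [e1, e2]
    have h4 : 0 ≤ x - y := by linarith
    have h5 : 0 ≤ s - t := by linarith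
    have h6 : s * (x - y) ≤ (s + t) * (x - y) := by nlinarith
    have h7 : 2 * (s - t) ≤ (s + t) * (x - y) := by linarith
    calc 2 * (s - t) ^ 2 = (s - t) * (2 * (s - t)) := by ring
      _ ≤ (s - t) * ((s + t) * (x - y)) := mul_le_mul_of_nonneg_left h7 h5
      _ = (s ^ 2 - t ^ 2) * (x - y) := by ring
  rcases le_total y x with h | h
  · exact key x y h
  · have := key y x h
    nlinarith

lemma ent_le (h0 : 0 < a) (h1 : a ≤ 1 / 4) (f : Fin 3 → ℝ) :
    entropy (pp a) (fun x => Real.exp (f x)) ≤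
      3 * (2 / a + 1) * dirichlet (PP a) (pp a) (fun x => Real.exp (f x)) f := by
  rw [entropy_eq, dir_eq h1]
  set g : Fin 3 → ℝ := fun x => Real.exp (f x / 2) with hg
  have hg0 : ∀ x, 0 < g x := fun x => Real.exp_pos _
  have hF : ∀ x, Real.exp (f x) = g x ^ 2 := by
    intro x
    rw [hg, ← Real.exp_nat_mul]; congr 1; push_cast; ring
  have hlog : ∀ x, f x = 2 * Real.log (g x) := by
    intro x
    rw [hg, Real.log_exp]; ring
  set μ := ∑ x, pp a x * g x with hμ
  set m := ∑ x, pp a x * Real.exp (f x) with hm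
  have hpos : ∀ x, 0 < pp a x := fun x => h0.trans_le (pp_ge h0 h1 x)
  have hμ0 : 0 < μ := Finset.sum_pos (fun x _ => mul_pos (hpos x) (hg0 x)) ⟨0, mem_univ _⟩
  have hm0 : 0 < m := Finset.sum_pos (fun x _ => mul_pos (hpos x) (Real.exp_pos _)) ⟨0, mem_univ _⟩
  have hsum : ∑ x, pp a x = 1 := by rw [Fin.sum_univ_three]; exact pp_sum
  have hgμ : ∀ x, 2 * (g x / μ) + 1 ≤ 2 / a + 1 := by
    intro x
    have : a * g x ≤ μ := (mul_le_mul_of_nonneg_right (pp_ge h0 h1 x) (hg0 x).le).trans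
      (Finset.single_le_sum (f := fun x => pp a x * g x)
        (fun y _ => (mul_pos (hpos y) (hg0 y)).le) (mem_univ x))
    have h2 : g x / μ ≤ 1 / a := by
      rw [div_le_div_iff₀ hμ0 h0]
      linarith
    have h3 : 2 / a = 2 * (1 / a) := by ring
    rw [h3]
    linarith
  have hpt : ∀ x, g x ^ 2 * f x - g x ^ 2 * (2 * Real.log μ) - g x ^ 2 + μ ^ 2 ≤
      (2 / a + 1) * (g x - μ) ^ 2 := by
    intro x
    have h2 := Real.log_le_sub_one_of_pos (show 0 < g x / μ by have := hg0 x; positivity)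
    rw [Real.log_div (hg0 x).ne' hμ0.ne'] at h2
    have h3 : g x ^ 2 * f x - g x ^ 2 * (2 * Real.log μ) - g x ^ 2 + μ ^ 2 ≤
        (2 * (g x / μ) + 1) * (g x - μ) ^ 2 := by
      rw [hlog x]
      have h4 := mul_le_mul_of_nonneg_left h2 (show 0 ≤ 2 * g x ^ 2 by positivity)
      have h5 : (2 * (g x / μ) + 1) * (g x - μ) ^ 2 =
          2 * g x ^ 2 * (g x / μ - 1) - g x ^ 2 + μ ^ 2 := by
        field_simp
        ring
      rw [h5]
      linarith
    exact h3.trans (mul_le_mul_of_nonneg_right (hgμ x) (sq_nonneg _))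
  have hS : ∑ x, pp a x * (g x ^ 2 * f x - g x ^ 2 * (2 * Real.log μ) - g x ^ 2 + μ ^ 2) ≤
      (2 / a + 1) * ∑ x, pp a x * (g x - μ) ^ 2 := by
    rw [Finset.mul_sum]
    refine Finset.sum_le_sum fun x _ => ?_
    calc _ ≤ pp a x * ((2 / a + 1) * (g x - μ) ^ 2) :=
          mul_le_mul_of_nonneg_left (hpt x) (hpos x).le
      _ = _ := by ring
  have hS2 : ∑ x, pp a x * (g x ^ 2 * f x - g x ^ 2 * (2 * Real.log μ) - g x ^ 2 + μ ^ 2) =
      ∑ x, pp a x * (Real.exp (f x) * f x) - m * (2 * Real.log μ) - m + μ ^ 2 := by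
    have e : μ ^ 2 = (∑ x, pp a x) * μ ^ 2 := by rw [hsum, one_mul]
    conv_rhs => rw [e]
    rw [hm, Finset.sum_mul, Finset.sum_mul, ← Finset.sum_sub_distrib, ← Finset.sum_sub_distrib,
      ← Finset.sum_add_distrib]
    refine Finset.sum_congr rfl fun x _ => ?_
    rw [hF x]
    ring
  have hlm : m * (2 * Real.log μ - Real.log m) ≤ μ ^ 2 - m := by
    have h2 := Real.log_le_sub_one_of_pos (show 0 < μ ^ 2 / m by positivity)
    rw [Real.log_div (by positivity) hm0.ne', Real.log_pow] at h2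
    have h3 := mul_le_mul_of_nonneg_left h2 hm0.le
    have h4 : m * (μ ^ 2 / m - 1) = μ ^ 2 - m := by field_simp
    rw [h4] at h3
    push_cast at h3
    exact h3
  have hV : ∑ x, pp a x * (g x - μ) ^ 2 ≤ 3 * a * ((g 0 - g 1) ^ 2 + (g 1 - g 2) ^ 2) := by
    have e : ∑ x, pp a x * (g x - μ) ^ 2 =
        ∑ x, pp a x * (g x - g 2) ^ 2 - (μ - g 2) ^ 2 := by
      have e1 : μ = pp a 0 * g 0 + pp a 1 * g 1 + pp a 2 * g 2 := by
        rw [hμ, Fin.sum_univ_three]
      have e2 := pp_sum (a := a)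
      rw [Fin.sum_univ_three, Fin.sum_univ_three]
      have e3 : pp a 2 = 1 - pp a 0 - pp a 1 := by linarith
      rw [e3] at e1
      rw [e3, e1]
      ring
    rw [e]
    have e4 : ∑ x, pp a x * (g x - g 2) ^ 2 = a * (g 0 - g 2) ^ 2 + a * (g 1 - g 2) ^ 2 := by
      rw [Fin.sum_univ_three]
      simp [pp]
    rw [e4]
    nlinarith [sq_nonneg (μ - g 2), mul_nonneg h0.le (sq_nonneg ((g 0 - g 1) - (g 1 - g 2)))]
  have hD : a * ((g 0 - g 1) ^ 2 + (g 1 - g 2) ^ 2) ≤
      a / 2 * ((Real.exp (f 0) - Real.exp (f 1)) * (f 0 - f 1) +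
        (Real.exp (f 1) - Real.exp (f 2)) * (f 1 - f 2)) := by
    have k1 := four_point (f 0) (f 1)
    have k2 := four_point (f 1) (f 2)
    have : a / 2 * (2 * (g 0 - g 1) ^ 2 + 2 * (g 1 - g 2) ^ 2) ≤ a / 2 *
      ((Real.exp (f 0) - Real.exp (f 1)) * (f 0 - f 1) +
        (Real.exp (f 1) - Real.exp (f 2)) * (f 1 - f 2)) :=
      mul_le_mul_of_nonneg_left (by simp only [hg]; linarith) (by linarith)
    linarith
  rw [hS2] at hS
  have hK : 0 < 2 / a + 1 := by positivity
  have h8 : (2 / a + 1) * ∑ x, pp a x * (g x - μ) ^ 2 ≤ (2 / a + 1) * (3 *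
      (a / 2 * ((Real.exp (f 0) - Real.exp (f 1)) * (f 0 - f 1) +
        (Real.exp (f 1) - Real.exp (f 2)) * (f 1 - f 2)))) :=
    mul_le_mul_of_nonneg_left (by linarith) hK.le
  linarith

lemma ratio_ge (h0 : 0 < a) (h1 : a ≤ 1 / 4) {f : Fin 3 → ℝ} (hf : ∃ x y, f x ≠ f y) :
    1 / (3 * (2 / a + 1)) ≤ dirichlet (PP a) (pp a) (fun x => Real.exp (f x)) f /
      entropy (pp a) (fun x => Real.exp (f x)) := by
  have h2 := ent_pos h0 h1 hf
  have h3 := ent_le h0 h1 f
  rw [div_le_div_iff₀ (by positivity) h2]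
  linarith

lemma cMLS_pos (h0 : 0 < a) (h1 : a ≤ 1 / 4) : 0 < cMLS (PP a) (pp a) := by
  refine lt_of_lt_of_le (show 0 < 1 / (3 * (2 / a + 1)) by positivity) (le_csInf ?_ ?_)
  · exact ⟨_, ![1, 0, 0], ⟨0, 1, by simp⟩, rfl⟩
  · rintro r ⟨f, hf, rfl⟩
    exact ratio_ge h0 h1 hf

lemma cMLS_le (h0 : 0 < a) (h1 : a ≤ 1 / 4) {f : Fin 3 → ℝ} (hf : ∃ x y, f x ≠ f y) :
    cMLS (PP a) (pp a) ≤ dirichlet (PP a) (pp a) (fun x => Real.exp (f x)) f /
      entropy (pp a) (fun x => Real.exp (f x)) := by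
  refine csInf_le ⟨1 / (3 * (2 / a + 1)), ?_⟩ ⟨f, hf, rfl⟩
  rintro r ⟨f, hf, rfl⟩
  exact ratio_ge h0 h1 hf

/-- The upper bound for the modified log-Sobolev constant, with `a = e^{-L}`, `L = e^s`. -/
lemma cMLS_bound {s : ℝ} (hs : 20 ≤ s) :
    cMLS (PP (Real.exp (-Real.exp s))) (pp (Real.exp (-Real.exp s))) ≤
      (s + 1) / (2 * (Real.exp s - 6)) := by
  set L := Real.exp s with hL
  have hL1 : 221 ≤ L := by
    have := Real.quadratic_le_exp_of_nonneg (show 0 ≤ s by linarith)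
    nlinarith
  set a := Real.exp (-L) with ha
  have h0 : 0 < a := Real.exp_pos _
  have haL : a * Real.exp L = 1 := by rw [ha, ← Real.exp_add]; simp
  have h1 : a ≤ 1 / 4 := by
    have := Real.quadratic_le_exp_of_nonneg (show 0 ≤ L by linarith)
    nlinarith
  have hsL : s ≤ L := by
    have := Real.add_one_le_exp s
    linarith
  set f : Fin 3 → ℝ := ![L, L - s, 0] with hf
  have hf1 : ∃ x y, f x ≠ f y := ⟨0, 2, by simp [hf]; linarith⟩
  refine (cMLS_le h0 h1 hf1).trans ?_
  have hent : L - 6 ≤ entropy (pp a) (fun x => Real.exp (f x)) := by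
    rw [entropy_eq, Fin.sum_univ_three, Fin.sum_univ_three]
    simp only [pp, hf]
    simp
    have hE1 : a * Real.exp (L - s) = 1 / L := by
      rw [Real.exp_sub, ← hL, mul_div_assoc', haL]
    have hL0 : 0 < L := by linarith
    have e : a * Real.exp L + a * Real.exp (L - s) + (1 - 2 * a) = 1 + 1 / L + (1 - 2 * a) := by
      rw [haL, hE1]
    rw [e]
    have hm1 : 1 ≤ 1 + 1 / L + (1 - 2 * a) := by
      have : 0 < 1 / L := by positivity
      linarith
    have hm3 : 1 + 1 / L + (1 - 2 * a) ≤ 3 := by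
      have : 1 / L ≤ 1 := by
        rw [div_le_one hL0]; linarith
      linarith
    have hml : Real.log (1 + 1 / L + (1 - 2 * a)) ≤ 2 := by
      have := Real.log_le_sub_one_of_pos (show 0 < 1 + 1 / L + (1 - 2 * a) by linarith)
      linarith
    have hml0 : 0 ≤ Real.log (1 + 1 / L + (1 - 2 * a)) := Real.log_nonneg hm1
    have e2 : a * (Real.exp L * L) = L := by rw [← mul_assoc, haL, one_mul]
    have e3 : 0 ≤ a * (Real.exp (L - s) * (L - s)) := by
      have : 0 ≤ L - s := by linarith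
      positivity
    rw [e2]
    nlinarith
  have hdir : dirichlet (PP a) (pp a) (fun x => Real.exp (f x)) f ≤ (s + 1) / 2 := by
    rw [dir_eq h1]
    simp only [hf]
    simp
    have hE1 : Real.exp (L - s) * L = Real.exp L := by
      rw [Real.exp_sub, ← hL]
      field_simp
    have hp := Real.exp_pos (L - s)
    have hp2 := Real.exp_pos L
    have k1 : (Real.exp L - Real.exp (L - s)) * s ≤ Real.exp L * s := by nlinarith
    have k2 : (Real.exp (L - s) - 1) * (L - s) ≤ Real.exp L := by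
      have : (Real.exp (L - s) - 1) * (L - s) ≤ Real.exp (L - s) * L := by nlinarith
      linarith
    have k3 : a / 2 * ((Real.exp L - Real.exp (L - s)) * s + (Real.exp (L - s) - 1) * (L - s)) ≤
        a / 2 * (Real.exp L * s + Real.exp L) :=
      mul_le_mul_of_nonneg_left (by linarith) (by positivity)
    have k4 : a / 2 * (Real.exp L * s + Real.exp L) = (s + 1) / 2 := by
      linear_combination (s + 1) / 2 * haL
    linarith
  rw [div_le_div_iff₀ (by linarith) (by linarith)]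
  have : 0 < s + 1 := by linarith
  nlinarith

/-- **Disproof.** For all constants there is a reversible chain with three states for which
`1/c_MLS` exceeds the constant times the entropy mixing time, and also the constant times the
entropy hitting-time parameter. -/
theorem result (C c : ℝ) (hC : 0 < C) (hc : 0 < c) :
    ∃ (P : Matrix (Fin 3) (Fin 3) ℝ) (π : Fin 3 → ℝ), IsChain P π ∧
      C * tauEnt P π < 1 / cMLS P π ∧ C * rhoEnt c P π < 1 / cMLS P π := by
  set s : ℝ := 96 * C + 20 + 4 / (3 * c) with hs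
  have hc1 : 0 < 4 / (3 * c) := by positivity
  have hs20 : 20 ≤ s := by linarith
  set L := Real.exp s with hL
  have hL1 : 221 ≤ L := by
    have := Real.quadratic_le_exp_of_nonneg (show 0 ≤ s by linarith)
    nlinarith
  set a := Real.exp (-L) with ha
  have h0 : 0 < a := Real.exp_pos _
  have haL : a * Real.exp L = 1 := by rw [ha, ← Real.exp_add]; simp
  have ha2 : a * L ^ 2 ≤ 2 := by
    have := Real.quadratic_le_exp_of_nonneg (show 0 ≤ L by linarith)
    nlinarith
  have h1 : a ≤ 1 / 8 := by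
    nlinarith
  have hlog : -Real.log a = L := by rw [ha, Real.log_exp]; ring
  have hexp : Real.exp (-(16 * s / 8)) = 1 / L ^ 2 := by
    rw [hL, one_div, ← Real.exp_nat_mul, ← Real.exp_neg]
    congr 1
    push_cast
    ring
  have hL0 : 0 < L := by linarith
  have hinv : 1 / L ^ 2 ≤ 1 / 221 ^ 2 := by
    apply one_div_le_one_div_of_le (by norm_num)
    nlinarith
  have hT : 0 ≤ 16 * s := by linarith
  have htau : tauEnt (PP a) (pp a) ≤ 16 * s := by
    refine tau_le h0 (by linarith) hT ?_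
    rw [hexp, hlog]
    have e1 : 4 / 3 * (1 / L ^ 2 + 8 * a) * L + 4 * a =
        4 / 3 * (1 / L) + (32 / 3) * (a * L ^ 2) * (1 / L) + 4 * a := by
      field_simp
      ring
    rw [e1]
    have e2 : 1 / L ≤ 1 / 221 := one_div_le_one_div_of_le (by norm_num) hL1
    have e3 : 0 < 1 / L := by positivity
    have e4 : a ≤ 1 / 100 := by nlinarith
    nlinarith
  have hrho : rhoEnt c (PP a) (pp a) ≤ 16 * s := by
    refine rho_le h0 h1 hc hT ?_ ?_
    · rw [hexp, hlog, div_mul_div_comm, div_le_div_iff₀ (by positivity) hL0]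
      have : 4 / (3 * c) ≤ L := by
        have := Real.add_one_le_exp s
        linarith
      rw [div_le_iff₀ (by positivity)] at this
      nlinarith
    · rw [hexp]
      linarith
  have hpos := cMLS_pos h0 (show a ≤ 1 / 4 by linarith)
  have hle := cMLS_bound hs20
  have hkey : C * (16 * s) < 1 / cMLS (PP a) (pp a) := by
    have h2 : C * (16 * s) < 2 * (L - 6) / (s + 1) := by
      rw [lt_div_iff₀ (by linarith)]
      have h3 := Real.pow_div_factorial_le_exp s (by linarith) 3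
      have h4 : s ^ 3 / 6 ≤ L := by
        have : ((3 : ℕ).factorial : ℝ) = 6 := by norm_num [Nat.factorial]
        rw [this] at h3
        exact h3
      have h5 : C * (16 * s) * (s + 1) ≤ 32 * C * s ^ 2 := by nlinarith [mul_pos hC (show 0 < s by linarith)]
      have h6 : 1 ≤ s / 3 - 32 * C := by linarith
      have h7 : s ^ 2 ≤ s ^ 2 * (s / 3 - 32 * C) := le_mul_of_one_le_right (by positivity) h6
      nlinarith
    refine h2.trans_le ?_
    have h8 : 1 / ((s + 1) / (2 * (L - 6))) ≤ 1 / cMLS (PP a) (pp a) :=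
      one_div_le_one_div_of_le hpos hle
    rwa [one_div_div] at h8
  exact ⟨PP a, pp a, isChain h0 (by linarith),
    (mul_le_mul_of_nonneg_left htau hC.le).trans_lt hkey,
    (mul_le_mul_of_nonneg_left hrho hC.le).trans_lt hkey⟩

end Pool.Agent.Results.MP_bada7b_pr.ThreeStates
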